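import Pool.Agent.Helper77.PPS.GoalsN
import Pool.Agent.Helper88.RS.DG1
import Mathlib.NumberTheory.Chebyshev

/-! PPS: N_CHB (Chebyshev's upper bound for the primes of a number field). -/

namespace Pool.Agent.Helper46.PPS

open NumberField Module IsDedekindDomain Pool.Agent.Helper77.PPS Pool.Agent.Helper88.RS

variable {F : Type} [Field F] [NumberField F]

theorem nv_two_le (v : HeightOneSpectrum (𝓞 F)) : 2 ≤ nv v := by
  have h0 : nv v ≠ 0 := by
    unfold nv
    rw [Ne, Ideal.absNorm_eq_zero_iff]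
    exact v.ne_bot
  have h1 : nv v ≠ 1 := by
    intro h
    unfold nv at h
    rw [Ideal.absNorm_eq_one_iff] at h
    exact v.isPrime.ne_top h
  omega

theorem lp_le_nv (v : HeightOneSpectrum (𝓞 F)) : lp v ≤ nv v := by
  have := v.isPrime
  have := lp_liesOver v
  obtain ⟨f, hN⟩ : ∃ f : ℕ, Ideal.absNorm v.asIdeal = lp v ^ f :=
    ⟨_, Ideal.absNorm_eq_pow_inertiaDeg' v.asIdeal (lp_prime v)⟩
  have h2 := nv_two_le v
  unfold nv at h2 ⊢
  rw [hN] at h2 ⊢
  have hf : f ≠ 0 := by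
    rintro rfl
    rw [pow_zero] at h2
    omega
  exact Nat.le_self_pow hf _

theorem lp_mem (v : HeightOneSpectrum (𝓞 F)) : ((lp v : ℕ) : 𝓞 F) ∈ v.asIdeal := by
  have h := lp_liesOver v
  have h1 : ((lp v : ℕ) : ℤ) ∈ Ideal.under ℤ v.asIdeal := by
    rw [← h.over]
    exact Ideal.mem_span_singleton_self _
  rw [Ideal.under, Ideal.mem_comap] at h1
  simpa using h1

theorem prod_le (T : Finset (HeightOneSpectrum (𝓞 F))) (p : ℕ) (hp : p ≠ 0)
    (hT : ∀ v ∈ T, lp v = p) : ∏ v ∈ T, nv v ≤ p ^ finrank ℚ F := by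
  classical
  have h1 : ∏ v ∈ T, v.asIdeal ∣ Ideal.span {((p : ℕ) : 𝓞 F)} := by
    have h2 : ∏ I ∈ T.image (fun v => v.asIdeal), I ∣ Ideal.span {((p : ℕ) : 𝓞 F)} := by
      refine Finset.prod_primes_dvd _ ?_ ?_
      · intro I hI
        obtain ⟨v, _, rfl⟩ := Finset.mem_image.1 hI
        exact v.prime
      · intro I hI
        obtain ⟨v, hv, rfl⟩ := Finset.mem_image.1 hI
        rw [Ideal.dvd_span_singleton, ← hT v hv]
        exact lp_mem v
    rwa [Finset.prod_image (fun v _ w _ h => HeightOneSpectrum.ext h)] at h2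
  have h3 : Ideal.absNorm (∏ v ∈ T, v.asIdeal) ∣ Ideal.absNorm (Ideal.span {((p : ℕ) : 𝓞 F)}) :=
    map_dvd _ h1
  rw [map_prod, Ideal.absNorm_span_natCast, RingOfIntegers.rank] at h3
  exact Nat.le_of_dvd (by positivity) h3

theorem sum_fibre (T : Finset (HeightOneSpectrum (𝓞 F))) (p : ℕ) (hp : p ≠ 0)
    (hT : ∀ v ∈ T, lp v = p) :
    ∑ v ∈ T, Real.log (nv v) ≤ (finrank ℚ F : ℝ) * Real.log p := by
  have h1 := prod_le T p hp hT
  have h2 : ∑ v ∈ T, Real.log (nv v) = Real.log ((∏ v ∈ T, nv v : ℕ) : ℝ) := by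
    rw [Nat.cast_prod, Real.log_prod]
    intro v _
    have := nv_two_le v
    positivity
  rw [h2, ← Real.log_pow]
  refine Real.log_le_log ?_ (by exact_mod_cast h1)
  have h3 : 0 < ∏ v ∈ T, nv v := Finset.prod_pos fun v _ => by
    have := nv_two_le v
    omega
  exact_mod_cast h3

/-- **Packet PPS-N_CHB.** -/
theorem n_chb : N_CHB := by
  classical
  intro F _ _
  refine ⟨(finrank ℚ F : ℝ) * Real.log 4, fun v => nv_two_le v, fun x T hx hT => ?_⟩
  have h1 : ∑ v ∈ T, Real.log (nv v)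
      = ∑ p ∈ T.image lp, ∑ v ∈ T.filter (fun v => lp v = p), Real.log (nv v) :=
    (Finset.sum_fiberwise_of_maps_to (fun v hv => Finset.mem_image_of_mem lp hv) _).symm
  have h2 : ∀ p ∈ T.image lp, ∑ v ∈ T.filter (fun v => lp v = p), Real.log (nv v) ≤
      (finrank ℚ F : ℝ) * Real.log p := by
    intro p hp
    obtain ⟨w, _, rfl⟩ := Finset.mem_image.1 hp
    exact sum_fibre _ _ (lp_prime w).ne_zero fun v hv => (Finset.mem_filter.1 hv).2
  have h3 : ∑ p ∈ T.image lp, Real.log (p : ℝ) ≤ Chebyshev.theta x := by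
    rw [Chebyshev.theta_eq_sum_Icc]
    refine Finset.sum_le_sum_of_subset_of_nonneg ?_ ?_
    · intro p hp
      obtain ⟨w, hw, rfl⟩ := Finset.mem_image.1 hp
      rw [Finset.mem_filter, Finset.mem_Icc]
      refine ⟨⟨Nat.zero_le _, Nat.le_floor ?_⟩, lp_prime w⟩
      have h5 : ((lp w : ℕ) : ℝ) ≤ (nv w : ℝ) := by exact_mod_cast lp_le_nv w
      exact h5.trans (hT w hw)
    · intro p hp _
      rw [Finset.mem_filter] at hp
      exact Real.log_nonneg (by exact_mod_cast hp.2.one_lt.le)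
  rw [h1]
  calc ∑ p ∈ T.image lp, ∑ v ∈ T.filter (fun v => lp v = p), Real.log (nv v)
      ≤ ∑ p ∈ T.image lp, (finrank ℚ F : ℝ) * Real.log p := Finset.sum_le_sum h2
    _ = (finrank ℚ F : ℝ) * ∑ p ∈ T.image lp, Real.log (p : ℝ) := by rw [Finset.mul_sum]
    _ ≤ (finrank ℚ F : ℝ) * (Real.log 4 * x) :=
        mul_le_mul_of_nonneg_left
          (h3.trans (Chebyshev.theta_le_log4_mul_x (by linarith))) (by positivity)
    _ = (finrank ℚ F : ℝ) * Real.log 4 * x := by ring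

end Pool.Agent.Helper46.PPS
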